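import Mathlib

set_option autoImplicit false

namespace Pool.Agent.Results.MP_8b1f5a_an.Proof

open Finset Filter Topology Module

section
variable {𝕜 X : Type} [RCLike 𝕜] [NormedAddCommGroup X] [NormedSpace 𝕜 X]
  [FiniteDimensional 𝕜 X]

theorem exists_max {n N : ℕ} [NeZero N] (hn : 0 < n) (h : n ≤ N) (b : Basis (Fin n) 𝕜 X) :
    ∃ x : Fin N → X, (∀ j, ‖x j‖ = 1) ∧
      ∀ A : X →ₗ[𝕜] X, ‖LinearMap.det A‖ ^ N ≤ ∏ j, ‖A (x j)‖ ^ n := by
  classical
  have : ProperSpace X := FiniteDimensional.proper_rclike 𝕜 X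
  let Φ : (Fin N → X) → ℝ := fun v => ∏ i : Fin N, ‖b.det (fun k => v (i + Fin.castLE h k))‖
  have hΦc : Continuous Φ := by
    refine continuous_finset_prod _ fun i _ => Continuous.norm ?_
    simp only [Basis.det_apply]
    refine Continuous.matrix_det (continuous_matrix fun a c => ?_)
    simp only [Basis.toMatrix_apply]
    exact (b.coord a).continuous_of_finiteDimensional.comp (continuous_apply _)
  have hΦ0 : ∀ v, 0 ≤ Φ v := fun v => prod_nonneg fun i _ => norm_nonneg _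
  have hsm : ∀ (c : Fin N → 𝕜) (v : Fin N → X), Φ (fun j => c j • v j) = (∏ j, ‖c j‖ ^ n) * Φ v := by
    intro c v
    have h1 : ∀ i : Fin N, ‖b.det (fun k => c (i + Fin.castLE h k) • v (i + Fin.castLE h k))‖ =
        (∏ k, ‖c (i + Fin.castLE h k)‖) * ‖b.det (fun k => v (i + Fin.castLE h k))‖ := by
      intro i
      rw [AlternatingMap.map_smul_univ, smul_eq_mul, norm_mul, norm_prod]
    simp only [Φ, h1, prod_mul_distrib]
    congr 1
    rw [Finset.prod_comm]
    have h2 : ∀ k : Fin n, ∏ i : Fin N, ‖c (i + Fin.castLE h k)‖ = ∏ j, ‖c j‖ := fun k =>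
      Equiv.prod_comp (Equiv.addRight (Fin.castLE h k)) (fun j => ‖c j‖)
    simp only [h2, prod_const, card_univ, Fintype.card_fin, prod_pow]
  have hA : ∀ (A : X →ₗ[𝕜] X) (v : Fin N → X),
      Φ (fun j => A (v j)) = ‖LinearMap.det A‖ ^ N * Φ v := by
    intro A v
    have h1 : ∀ i : Fin N, ‖b.det (fun k => A (v (i + Fin.castLE h k)))‖ =
        ‖LinearMap.det A‖ * ‖b.det (fun k => v (i + Fin.castLE h k))‖ := by
      intro i
      rw [← norm_mul, ← Basis.det_comp]
      rfl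
    simp only [Φ, h1, prod_mul_distrib, prod_const, card_univ, Fintype.card_fin]
  obtain ⟨u, hu⟩ : ∃ u : X, ‖u‖ = 1 := by
    exact ⟨_, norm_smul_inv_norm (𝕜 := 𝕜) (b.ne_zero ⟨0, hn⟩)⟩
  have hK : IsCompact (Set.pi Set.univ fun _ : Fin N => Metric.sphere (0 : X) 1) :=
    isCompact_univ_pi fun _ => isCompact_sphere _ _
  obtain ⟨x, hx, hmax⟩ := hK.exists_isMaxOn ⟨fun _ => u, fun _ _ => by simpa using hu⟩
    hΦc.continuousOn
  have hle : ∀ v, Φ v ≤ (∏ j, ‖v j‖ ^ n) * Φ x := by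
    intro v
    let w : Fin N → X := fun j => if v j = 0 then u else ((‖v j‖ : 𝕜))⁻¹ • v j
    have hw : w ∈ Set.pi Set.univ fun _ : Fin N => Metric.sphere (0 : X) 1 := by
      intro j _
      rw [mem_sphere_zero_iff_norm]
      simp only [w]
      split_ifs with h0
      · exact hu
      · exact norm_smul_inv_norm h0
    have hv : v = fun j => ((‖v j‖ : 𝕜)) • w j := by
      funext j
      simp only [w]
      split_ifs with h0
      · simp [h0]
      · rw [smul_inv_smul₀ (by simpa using h0)]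
    have h1 : Φ w ≤ Φ x := hmax hw
    calc Φ v = (∏ j, ‖((‖v j‖ : ℝ) : 𝕜)‖ ^ n) * Φ w := by rw [← hsm, ← hv]
      _ ≤ _ := by
        simp only [RCLike.norm_ofReal, abs_norm]
        exact mul_le_mul_of_nonneg_left h1 (prod_nonneg fun _ _ => by positivity)
  have hpos : 0 < Φ x := by
    let v : Fin N → X := fun j => ∑ k : Fin n, (((j : ℕ) : 𝕜) ^ (k : ℕ)) • b k
    have h1 : 0 < Φ v := by
      refine prod_pos fun i _ => norm_pos_iff.mpr ?_
      have : b.toMatrix (fun k => v (i + Fin.castLE h k)) =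
          (Matrix.vandermonde fun k => (((i + Fin.castLE h k : Fin N) : ℕ) : 𝕜)).transpose := by
        ext a c
        simp [Basis.toMatrix_apply, v, Finsupp.single_apply]
      rw [Basis.det_apply, this, Matrix.det_transpose, Matrix.det_vandermonde_ne_zero_iff]
      intro a c hac
      exact Fin.castLE_injective h (add_right_injective i (Fin.ext (Nat.cast_injective hac)))
    by_contra h2
    have h3 : Φ x = 0 := le_antisymm (not_lt.mp h2) (hΦ0 x)
    have := hle v
    rw [h3, mul_zero] at this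
    linarith
  refine ⟨x, fun j => by simpa using hx j (Set.mem_univ j), fun A => ?_⟩
  have := hle (fun j => A (x j))
  rw [hA] at this
  exact le_of_mul_le_mul_right this hpos

theorem re_trace_le {n N : ℕ} (b : Basis (Fin n) 𝕜 X) (x : Fin N → X) (hx : ∀ j, ‖x j‖ = 1)
    (hA : ∀ A : X →ₗ[𝕜] X, ‖LinearMap.det A‖ ^ N ≤ ∏ j, ‖A (x j)‖ ^ n) (H : X →ₗ[𝕜] X) :
    N * RCLike.re (LinearMap.trace 𝕜 X H) ≤ n * ∑ j, ‖H (x j)‖ := by
  obtain ⟨Q, hQ⟩ : ∃ Q : Polynomial 𝕜, ∀ r : 𝕜,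
      LinearMap.det (1 + r • H) = 1 + LinearMap.trace 𝕜 X H * r + Q.eval r * r ^ 2 := by
    exact ⟨_, fun r => by
      rw [← LinearMap.det_toMatrix b, map_add, map_smul, LinearMap.toMatrix_one,
        Matrix.det_one_add_smul, LinearMap.trace_eq_matrix_trace 𝕜 b]⟩
  set τ := LinearMap.trace 𝕜 X H
  have d1 : HasDerivAt (fun r : 𝕜 => 1 + τ * r + Q.eval r * r ^ 2) τ (((0 : ℝ) : 𝕜)) := by
    have := (((hasDerivAt_id ((0 : ℝ) : 𝕜)).const_mul τ).const_add 1).fun_add
      ((Q.hasDerivAt ((0 : ℝ) : 𝕜)).fun_mul (hasDerivAt_pow 2 _))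
    simpa using this
  have d2 : HasDerivAt (fun t : ℝ => (t : 𝕜)) 1 0 := by
    simpa using (RCLike.ofRealCLM (K := 𝕜)).hasDerivAt (x := 0)
  have d3 := RCLike.reCLM.hasFDerivAt.comp_hasDerivAt (0 : ℝ) (d1.scomp (0 : ℝ) d2)
  let g : ℝ → ℝ := fun t => RCLike.re (LinearMap.det (1 + (t : 𝕜) • H))
  have d4 : HasDerivAt g (RCLike.re τ) 0 := by
    simp only [g, hQ]
    rw [one_smul] at d3
    exact d3
  have g0 : g 0 = 1 := by simp [g]
  have d5 := d4.fun_pow N
  have d6 : HasDerivAt (fun t : ℝ => ∏ j, (1 + t * ‖H (x j)‖) ^ n) (n * ∑ j, ‖H (x j)‖) 0 := by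
    have := HasDerivAt.fun_finsetProd (u := univ) (x := (0 : ℝ))
      (f := fun j (t : ℝ) => (1 + t * ‖H (x j)‖) ^ n) (f' := fun j => n * ‖H (x j)‖)
      (fun j _ => by
        simpa using (((hasDerivAt_id (0 : ℝ)).mul_const ‖H (x j)‖).const_add 1).fun_pow n)
    simpa [mul_sum] using this
  have d7 := (d6.fun_sub d5).tendsto_slope_zero_right
  have hev : ∀ᶠ t in 𝓝[>] (0 : ℝ), 0 < g t :=
    nhdsWithin_le_nhds (d4.continuousAt.eventually (lt_mem_nhds (by rw [g0]; exact one_pos)))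
  have := ge_of_tendsto d7 (b := 0) (by
    filter_upwards [hev, self_mem_nhdsWithin] with t h1 h2
    have h2' : 0 < t := h2
    refine smul_nonneg (inv_nonneg.mpr h2'.le) ?_
    have a1 : g t ^ N ≤ ‖LinearMap.det (1 + (t : 𝕜) • H)‖ ^ N :=
      pow_le_pow_left₀ h1.le (RCLike.re_le_norm _) N
    have a2 : ∏ j, ‖(1 + (t : 𝕜) • H) (x j)‖ ^ n ≤ ∏ j, (1 + t * ‖H (x j)‖) ^ n := by
      refine prod_le_prod (fun _ _ => by positivity) fun j _ =>
        pow_le_pow_left₀ (norm_nonneg _) ?_ n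
      rw [LinearMap.add_apply, LinearMap.smul_apply, Module.End.one_apply]
      refine (norm_add_le _ _).trans (le_of_eq ?_)
      rw [hx, norm_smul, RCLike.norm_ofReal, abs_of_pos h2']
    have a3 := hA (1 + (t : 𝕜) • H)
    simp only [zero_add, g0, zero_mul, add_zero, one_pow, prod_const_one, sub_self, sub_zero]
    linarith)
  simp only [g0, one_pow, mul_one] at this
  linarith

end

theorem result (𝕜 X : Type) [RCLike 𝕜] [NormedAddCommGroup X] [NormedSpace 𝕜 X]
    [FiniteDimensional 𝕜 X] (hn : 0 < Module.finrank 𝕜 X) (N : ℕ) (hN : Module.finrank 𝕜 X ≤ N) :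
    ∃ (x : Fin N → X) (f : Fin N → X →L[𝕜] 𝕜) (c : 𝕜),
      (∀ j, ‖x j‖ = 1 ∧ ‖f j‖ = 1 ∧ f j (x j) = 1) ∧ ∀ y : X, ∑ j, f j y • x j = c • y := by
  set n := Module.finrank 𝕜 X with hndef
  have : NeZero N := ⟨by omega⟩
  have hn0 : (0 : ℝ) < n := by exact_mod_cast hn
  let b := Module.finBasis 𝕜 X
  obtain ⟨x, hx, hA⟩ := exists_max hn hN b
  have h1 := re_trace_le b x hx hA
  set c : 𝕜 := (((N : ℝ) / n : ℝ) : 𝕜) with hc
  let τ : Dual 𝕜 (X →ₗ[𝕜] X) := c • LinearMap.trace 𝕜 X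
  have h2 : ∀ H, ‖τ H‖ ≤ ∑ j, ‖H (x j)‖ := by
    intro H
    obtain ⟨s, hs1, hs2⟩ := RCLike.exists_norm_eq_mul_self (LinearMap.trace 𝕜 X H)
    have h3 := h1 (s • H)
    rw [map_smul, smul_eq_mul, ← hs2, RCLike.ofReal_re] at h3
    simp only [LinearMap.smul_apply, norm_smul, hs1, one_mul] at h3
    show ‖c • LinearMap.trace 𝕜 X H‖ ≤ _
    rw [norm_smul, hc, RCLike.norm_ofReal, abs_of_nonneg (by positivity), div_mul_eq_mul_div,
      div_le_iff₀ hn0]
    linarith
  let L : (X →ₗ[𝕜] X) →ₗ[𝕜] (Fin N → X) := LinearMap.pi fun j => LinearMap.applyₗ (x j)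
  have hL : ∀ H j, L H j = H (x j) := fun _ _ => rfl
  obtain ⟨g0, hg0⟩ : τ ∈ LinearMap.range L.dualMap := by
    rw [LinearMap.range_dualMap_eq_dualAnnihilator_ker, Submodule.mem_dualAnnihilator]
    intro H hH
    have h3 := h2 H
    have h4 : ∀ j, H (x j) = 0 := fun j => congrFun (LinearMap.mem_ker.mp hH) j
    simpa [h4] using h3
  let p : Seminorm 𝕜 (Fin N → X) := ∑ j, (normSeminorm 𝕜 X).comp (LinearMap.proj j)
  have hp : ∀ v, p v = ∑ j, ‖v j‖ := by
    intro v
    simp [p, _root_.sum_apply]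
  obtain ⟨g, hg1, hg2⟩ := Module.Dual.exists_extension_of_le_seminorm (LinearMap.range L)
    (g0.comp (LinearMap.range L).subtype) (p := p) (by
      rintro ⟨_, H, rfl⟩
      rw [hp]
      have : g0 (L H) = τ H := LinearMap.congr_fun hg0 H
      simpa [this, hL] using h2 H)
  have hgL : ∀ H, g (L H) = τ H := fun H => (hg1 ⟨_, H, rfl⟩).trans (LinearMap.congr_fun hg0 H)
  have hb : ∀ j y, ‖(g.comp (LinearMap.single 𝕜 (fun _ => X) j)) y‖ ≤ 1 * ‖y‖ := by
    intro j y
    refine (hg2 _).trans ?_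
    rw [hp, sum_eq_single j (fun i _ hi => by simp [hi]) (by simp)]
    simp
  let f : Fin N → X →L[𝕜] 𝕜 := fun j => LinearMap.mkContinuous _ 1 (hb j)
  have hf1 : ∀ j, ‖f j‖ ≤ 1 := fun j => LinearMap.mkContinuous_norm_le _ zero_le_one _
  have hsum : ∀ H : X →ₗ[𝕜] X, ∑ j, f j (H (x j)) = c * LinearMap.trace 𝕜 X H := by
    intro H
    have : L H = ∑ j, Pi.single j (H (x j)) := (univ_sum_single _).symm
    have h3 := hgL H
    rw [this, map_sum] at h3
    exact h3
  have hle : ∀ j, ‖f j (x j)‖ ≤ 1 := fun j => by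
    have := (f j).le_opNorm (x j)
    rw [hx, mul_one] at this
    exact this.trans (hf1 j)
  have hre : ∀ j, RCLike.re (f j (x j)) = 1 := by
    have h3 := congrArg RCLike.re (hsum 1)
    rw [LinearMap.trace_one, map_sum, hc, ← hndef, ← RCLike.ofReal_natCast (K := 𝕜) n,
      ← RCLike.ofReal_mul,
      RCLike.ofReal_re, div_mul_cancel₀ _ hn0.ne'] at h3
    have h4 := (sum_eq_sum_iff_of_le (s := univ) (f := fun j => RCLike.re (f j (x j)))
      (g := fun _ => (1 : ℝ)) fun j _ => (RCLike.re_le_norm _).trans (hle j)).mp (by simpa using h3)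
    exact fun j => h4 j (mem_univ j)
  have hone : ∀ j, f j (x j) = 1 := by
    intro j
    have h3 := hle j
    have h4 := hre j
    have h5 := RCLike.norm_sq_eq_def (z := f j (x j))
    have h6 : RCLike.im (f j (x j)) = 0 := by
      nlinarith [norm_nonneg (f j (x j)), mul_self_nonneg (RCLike.im (f j (x j)))]
    exact RCLike.ext (by simpa using h4) (by simpa using h6)
  refine ⟨x, f, c, fun j => ⟨hx j, le_antisymm (hf1 j) ?_, hone j⟩, fun y => ?_⟩
  · have := (f j).le_opNorm (x j)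
    rwa [hone, hx, norm_one, mul_one] at this
  · rw [← sub_eq_zero, ← Module.forall_dual_apply_eq_zero_iff 𝕜]
    intro φ
    have := hsum (φ.smulRight y)
    rw [LinearMap.trace_smulRight] at this
    simp only [LinearMap.smulRight_apply, map_smul, smul_eq_mul] at this
    simp only [map_sub, map_sum, map_smul, smul_eq_mul, ← this]
    rw [sub_eq_zero]
    exact sum_congr rfl fun j _ => mul_comm _ _

end Pool.Agent.Results.MP_8b1f5a_an.Proof
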